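import Pool.Agent.R970.RC.FIN

open MeasureTheory Set
open scoped ENNReal

namespace Pool.Agent.Results.MP_ce24da_an.Maximizers

open R970.RC

/-- For all `n` and `0 ≤ p < q < n` the ratio of Riesz capacities `cap_q(K) / cap_p(K)` attains its
supremum over the compact sets `K ⊂ ℝⁿ` with `cap_p(K) > 0`. -/
theorem result (n : ℕ) (p q : ℝ) (hp : 0 ≤ p) (hpq : p < q) (hqn : q < n) :
    ∃ K₀ : Set (E n), IsCompact K₀ ∧ 0 < capR p K₀ ∧
      ∀ K : Set (E n), IsCompact K → 0 < capR p K →
        capR q K / capR p K ≤ capR q K₀ / capR p K₀ :=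
  final n p q hp hpq hqn

end Pool.Agent.Results.MP_ce24da_an.Maximizers
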